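import Pool.Agent.H.h20F.Balanced

/-!
Strictly increasing chains of maximal extensions of arbitrary words have bounded length if every step is witnessed
by a pair of homomorphisms which is balanced on the words: every `q` consecutive factors which are not erased have an
image at least as long as the image of every factor.
-/

set_option autoImplicit false

namespace Pool.Agent.Results.MP_33c792_lc.Balanced

/-- The pair `(g, h)` agrees on `x`. -/
def Agree {n : ℕ} (g h : Fin n → List (Fin n)) (x : List (Fin n)) : Prop := x.flatMap g = x.flatMap h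

/-- The pair `(g, h)` is `q`-balanced on the product of the base words `W b` in the order `z`: the image under `g` of
every `q` consecutive factors `W b` which `g` does not erase is at least as long as the images of all the factors
under `g` and under `h`, and the same holds with `g` and `h` exchanged. -/
def Balanced {m n : ℕ} (q : ℕ) (W : Fin m → List (Fin n)) (g h : Fin n → List (Fin n)) (z : List (Fin m)) : Prop :=
  (∀ y, y <:+: z.filter (fun b => (W b).flatMap g ≠ []) → y.length = q → ∀ b ∈ z,
    ((W b).flatMap g).length ≤ ((y.flatMap W).flatMap g).length ∧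
    ((W b).flatMap h).length ≤ ((y.flatMap W).flatMap g).length) ∧
  (∀ y, y <:+: z.filter (fun b => (W b).flatMap h ≠ []) → y.length = q → ∀ b ∈ z,
    ((W b).flatMap g).length ≤ ((y.flatMap W).flatMap h).length ∧
    ((W b).flatMap h).length ≤ ((y.flatMap W).flatMap h).length)

/-- For all `m` and `q` there is a bound `K` for the length of all sequences `x 0, ..., x (t - 1)` of words, over any
alphabet, which are products of `m` base words `W 0, ..., W (m - 1)` in the orders `z 0, ..., z (t - 1)`, such that
for every `1 ≤ i < t` there is a pair `(g, h)` which agrees on `x 0, ..., x (i - 1)`, does not agree on `x i`, and is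
`q`-balanced on `x 0, ..., x (i - 1)`. -/
theorem result : ∀ m q : ℕ, ∃ K : ℕ, ∀ (n : ℕ) (W : Fin m → List (Fin n)) (t : ℕ)
    (z : ℕ → List (Fin m)), (∀ i, 1 ≤ i → i < t → ∃ g h : Fin n → List (Fin n),
      (∀ j < i, Agree g h ((z j).flatMap W) ∧ Balanced q W g h (z j)) ∧
      ¬ Agree g h ((z i).flatMap W)) → t ≤ K := by
  intro m q
  obtain ⟨K, hK⟩ := Pool.H20F.bal_chain m q
  refine ⟨K + 1, fun n W t z hx => ?_⟩
  have hex : ∀ i : ℕ, ∃ g h : Fin n → List (Fin n), i + 1 < t →
      (∀ j < i + 1, Agree g h ((z j).flatMap W) ∧ Balanced q W g h (z j)) ∧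
      ¬ Agree g h ((z (i + 1)).flatMap W) := by
    intro i
    by_cases hi : i + 1 < t
    · obtain ⟨g, h, h1⟩ := hx (i + 1) (by omega) hi
      exact ⟨g, h, fun _ => h1⟩
    · exact ⟨fun _ => [], fun _ => [], fun h => absurd h hi⟩
  choose g h hgh using hex
  have key : ∀ (w : List (Fin m)) (f : Fin n → List (Fin n)),
      w.flatMap (fun b => (W b).flatMap f) = (w.flatMap W).flatMap f := by
    intro w f
    rw [List.flatMap_assoc]
  by_contra ht
  have h3 := hK (Fin n) (t - 1) z (fun i b => (W b).flatMap (g i)) (fun i b => (W b).flatMap (h i)) ?_ ?_ ?_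
  · omega
  · intro i hi j hj
    rw [key, key]
    exact ((hgh i (by omega)).1 j (by omega)).1
  · intro i hi
    rw [key, key]
    exact (hgh i (by omega)).2
  · intro i hi j hj
    obtain ⟨b1, b2⟩ := ((hgh i (by omega)).1 j (by omega)).2
    constructor
    · intro y hy hyl a ha
      rw [key]
      exact b1 y hy hyl a ha
    · intro y hy hyl a ha
      rw [key]
      exact b2 y hy hyl a ha

end Pool.Agent.Results.MP_33c792_lc.Balanced
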