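import Pool.Agent.H.h20D.Chain

/-!
Strictly increasing chains of maximal extensions of arbitrary words have bounded length if every step is witnessed
by a pair of homomorphisms of bounded delay along alignments of the words with themselves.
-/

set_option autoImplicit false

namespace Pool.Agent.Results.MP_33c792_lc.BoundedDelay

/-- The pair `(g, h)` agrees on `x`. -/
def Agree {n : ℕ} (g h : Fin n → List (Fin n)) (x : List (Fin n)) : Prop := x.flatMap g = x.flatMap h

/-- `y` is an alignment of `z` with itself: a sequence of steps, every step reads at most one letter of the first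
copy of `z` and at most one letter of the second copy. -/
def Alignment {m : ℕ} (y : List (Option (Fin m) × Option (Fin m))) (z : List (Fin m)) : Prop :=
  y.filterMap Prod.fst = z ∧ y.filterMap Prod.snd = z

/-- The pair `(g, h)` has delay at most `q` along the alignment `y`, where the letter `b` stands for the base word
`W b`: the image under `g` of the prefix of the first copy read after `l` steps is not longer than the image under
`h` of the prefix of the second copy read after `l + q` steps, and vice versa. -/
def Delay {m n : ℕ} (q : ℕ) (W : Fin m → List (Fin n)) (g h : Fin n → List (Fin n))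
    (y : List (Option (Fin m) × Option (Fin m))) : Prop :=
  ∀ l : ℕ, l + q ≤ y.length →
    ((((y.take l).filterMap Prod.fst).flatMap W).flatMap g).length ≤
      ((((y.take (l + q)).filterMap Prod.snd).flatMap W).flatMap h).length ∧
    ((((y.take l).filterMap Prod.snd).flatMap W).flatMap h).length ≤
      ((((y.take (l + q)).filterMap Prod.fst).flatMap W).flatMap g).length

/-- For all `m` and `q` there is a bound `K` for the length of all sequences `x 0, ..., x (t - 1)` of words, over any
alphabet, which are products of `m` base words `W 0, ..., W (m - 1)` in the orders `z 0, ..., z (t - 1)`, with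
alignments `y 0, ..., y (t - 1)`, such that for every `1 ≤ i < t` there is a pair `(g, h)` which agrees on
`x 0, ..., x (i - 1)` and not on `x i`, and has delay at most `q` along `y 0, ..., y i` (this is required only if the
two images of `x i` have the same length). -/
theorem result : ∀ m q : ℕ, ∃ K : ℕ, ∀ (n : ℕ) (W : Fin m → List (Fin n)) (t : ℕ) (z : ℕ → List (Fin m))
    (y : ℕ → List (Option (Fin m) × Option (Fin m))), (∀ j < t, Alignment (y j) (z j)) →
    (∀ i, 1 ≤ i → i < t → ∃ g h : Fin n → List (Fin n),
      (∀ j < i, Agree g h ((z j).flatMap W)) ∧ ¬ Agree g h ((z i).flatMap W) ∧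
      ((((z i).flatMap W).flatMap g).length = (((z i).flatMap W).flatMap h).length →
        ∀ j ≤ i, Delay q W g h (y j))) → t ≤ K := by
  intro m q
  obtain ⟨K, hK⟩ := Pool.H20D.chain (Option (Fin m) × Option (Fin m)) q
  refine ⟨K + 1, fun n W t z y hy hx => ?_⟩
  have hex : ∀ i : ℕ, ∃ g h : Fin n → List (Fin n), i + 1 < t →
      (∀ j < i + 1, Agree g h ((z j).flatMap W)) ∧ ¬ Agree g h ((z (i + 1)).flatMap W) ∧
      ((((z (i + 1)).flatMap W).flatMap g).length = (((z (i + 1)).flatMap W).flatMap h).length →
        ∀ j ≤ i + 1, Delay q W g h (y j)) := by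
    intro i
    by_cases hi : i + 1 < t
    · obtain ⟨g, h, h1⟩ := hx (i + 1) (by omega) hi
      exact ⟨g, h, fun _ => h1⟩
    · exact ⟨fun _ => [], fun _ => [], fun h => absurd h hi⟩
  choose g h hgh using hex
  let G : (Fin n → List (Fin n)) → Option (Fin m) × Option (Fin m) → List (Fin n) :=
    fun f p => p.1.elim [] (fun b => (W b).flatMap f)
  let H : (Fin n → List (Fin n)) → Option (Fin m) × Option (Fin m) → List (Fin n) :=
    fun f p => p.2.elim [] (fun b => (W b).flatMap f)
  have e1 : ∀ (f : Fin n → List (Fin n)) (v : List (Option (Fin m) × Option (Fin m))),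
      v.flatMap (G f) = ((v.filterMap Prod.fst).flatMap W).flatMap f := by
    intro f v
    induction v with
    | nil => rfl
    | cons p v ih =>
      obtain ⟨o, o'⟩ := p
      rw [List.flatMap_cons, ih]
      cases o with
      | none => simp [G]
      | some a => simp [G]
  have e2 : ∀ (f : Fin n → List (Fin n)) (v : List (Option (Fin m) × Option (Fin m))),
      v.flatMap (H f) = ((v.filterMap Prod.snd).flatMap W).flatMap f := by
    intro f v
    induction v with
    | nil => rfl
    | cons p v ih =>
      obtain ⟨o, o'⟩ := p
      rw [List.flatMap_cons, ih]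
      cases o' with
      | none => simp [H]
      | some a => simp [H]
  by_contra ht
  have h3 := hK (Fin n) (t - 1) y (fun i => G (g i)) (fun i => H (h i)) ?_ ?_ ?_
  · omega
  · intro i hi j hj
    rw [e1, e2, (hy j (by omega)).1, (hy j (by omega)).2]
    exact (hgh i (by omega)).1 j (by omega)
  · intro i hi
    rw [e1, e2, (hy (i + 1) (by omega)).1, (hy (i + 1) (by omega)).2]
    exact (hgh i (by omega)).2.1
  · intro i hi hl j hj l hlq
    rw [e1, e2, (hy (i + 1) (by omega)).1, (hy (i + 1) (by omega)).2] at hl
    rw [e1, e1, e2, e2]
    exact (hgh i (by omega)).2.2 hl j hj l hlq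

end Pool.Agent.Results.MP_33c792_lc.BoundedDelay
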