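import Pool.Agent.H.h20E.Synd

/-!
Strictly increasing chains of maximal extensions of words in which every letter occurs with bounded gaps have
bounded length, uniformly in the alphabet and in the base words.
-/

set_option autoImplicit false

namespace Pool.Agent.Results.MP_33c792_lc.BoundedGaps

/-- The maximal extension of `L`: the words on which every pair of homomorphisms that agrees on `L` also
agrees (a homomorphism is given by the images of the letters). -/
def M {n : ℕ} (L : Set (List (Fin n))) : Set (List (Fin n)) :=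
  {w | ∀ g h : Fin n → List (Fin n), (∀ x ∈ L, x.flatMap g = x.flatMap h) →
    w.flatMap g = w.flatMap h}

/-- The words `z` over `m` letters such that every factor of length `q` of `z` contains every letter of `z`. -/
def Gaps (m q : ℕ) : Set (List (Fin m)) :=
  {z | ∀ u, u <:+: z → u.length = q → ∀ a ∈ z, a ∈ u}

/-- For all `m` and `q` there is a bound `K` for the length of all strictly increasing chains
`M {x 0} ⊂ M {x 0, x 1} ⊂ ...` of words `x j` which are products of `m` base words `W 0, ..., W (m - 1)` in an order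
given by words of `Gaps m q`; it does not depend on the alphabet and on the base words. -/
theorem result : ∀ m q : ℕ, ∃ K : ℕ, ∀ (n : ℕ) (W : Fin m → List (Fin n)) (t : ℕ)
    (x : ℕ → List (Fin n)), (∀ j < t, ∃ z ∈ Gaps m q, x j = z.flatMap W) →
    (∀ i, 1 ≤ i → i < t → M (x '' Set.Iio i) ⊂ M (x '' Set.Iio (i + 1))) → t ≤ K := by
  intro m q
  obtain ⟨K, hK⟩ := Pool.H20E.gap_chain' m q
  refine ⟨K + 2, fun n W t x hx hM => ?_⟩
  have hex : ∀ i, 1 ≤ i → i < t → ∃ g h : Fin n → List (Fin n),
      (∀ j < i, (x j).flatMap g = (x j).flatMap h) ∧ (x i).flatMap g ≠ (x i).flatMap h := by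
    intro i hi hit
    obtain ⟨w, hw, hw'⟩ := Set.exists_of_ssubset (hM i hi hit)
    have hw2 : ¬ ∀ g h : Fin n → List (Fin n), (∀ z ∈ x '' Set.Iio i, z.flatMap g = z.flatMap h) →
      w.flatMap g = w.flatMap h := hw'
    push Not at hw2
    obtain ⟨g, h, h1, h2⟩ := hw2
    refine ⟨g, h, fun j hj => h1 _ ⟨j, hj, rfl⟩, fun h3 => h2 ?_⟩
    have hw3 : ∀ g h : Fin n → List (Fin n),
      (∀ z ∈ x '' Set.Iio (i + 1), z.flatMap g = z.flatMap h) → w.flatMap g = w.flatMap h := hw
    refine hw3 g h ?_
    rintro _ ⟨j, hj, rfl⟩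
    rcases Nat.lt_succ_iff_lt_or_eq.1 hj with h4 | h4
    · exact h1 _ ⟨j, h4, rfl⟩
    · rw [h4]
      exact h3
  have hex' : ∀ i : ℕ, ∃ g h : Fin n → List (Fin n), i + 1 < t →
      (∀ j < i + 1, (x j).flatMap g = (x j).flatMap h) ∧
        (x (i + 1)).flatMap g ≠ (x (i + 1)).flatMap h := by
    intro i
    by_cases hi : i + 1 < t
    · obtain ⟨g, h, h1, h2⟩ := hex (i + 1) (by omega) hi
      exact ⟨g, h, fun _ => ⟨h1, h2⟩⟩
    · exact ⟨fun _ => [], fun _ => [], fun h => absurd h hi⟩
  choose g h hgh using hex'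
  have hz' : ∀ j, ∃ z : List (Fin m), j < t → z ∈ Gaps m q ∧ x j = z.flatMap W := by
    intro j
    by_cases hj : j < t
    · obtain ⟨z, h1, h2⟩ := hx j hj
      exact ⟨z, fun _ => ⟨h1, h2⟩⟩
    · exact ⟨[], fun h => absurd h hj⟩
  choose z hz using hz'
  by_contra ht
  have key : ∀ (w : List (Fin m)) (f : Fin n → List (Fin n)),
      w.flatMap (fun b => (W b).flatMap f) = (w.flatMap W).flatMap f := by
    intro w f
    rw [List.flatMap_assoc]
  have h3 := hK (Fin n) (t - 1) z (fun i b => (W b).flatMap (g i)) (fun i b => (W b).flatMap (h i))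
    (fun j hj => (hz j (by omega)).1) ?_ ?_
  · omega
  · intro i hi j hj
    rw [key, key, ← (hz j (by omega)).2]
    exact (hgh i (by omega)).1 j (by omega)
  · intro i hi
    rw [key, key, ← (hz (i + 1) (by omega)).2]
    exact (hgh i (by omega)).2

end Pool.Agent.Results.MP_33c792_lc.BoundedGaps
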