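import Pool.Agent.H.MP_33c792_lc.Words

/-!
Strictly increasing chains of maximal extensions of words of bounded power depth have bounded length,
uniformly in the alphabet and in the base words.
-/

set_option autoImplicit false

namespace Pool.Agent.Results.MP_33c792_lc.PowerDepth

open Pool.MP33c792

/-- The maximal extension of `L`: the words on which every pair of homomorphisms that agrees on `L` also
agrees (a homomorphism is given by the images of the letters). -/
def M {n : ℕ} (L : Set (List (Fin n))) : Set (List (Fin n)) :=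
  {w | ∀ g h : Fin n → List (Fin n), (∀ x ∈ L, x.flatMap g = x.flatMap h) →
    w.flatMap g = w.flatMap h}

/-- The words of power depth at most `s` over the base words `W b`: depth `0` means the empty word or a
base word, and depth `s + 1` means a power `(u v) ^ k`, `k ≥ 0`, with `u`, `v` of depth at most `s`. -/
def PD {m n : ℕ} (W : Fin m → List (Fin n)) : ℕ → Set (List (Fin n))
  | 0 => {w | w = [] ∨ ∃ b, w = W b}
  | s + 1 => {w | ∃ u ∈ PD W s, ∃ v ∈ PD W s, ∃ k : ℕ, w = (List.replicate k (u ++ v)).flatten}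

theorem exists_cls {m n : ℕ} (W : Fin m → List (Fin n)) (s : ℕ) :
    ∀ w ∈ PD W s, ∃ y ∈ Cls m s, w = y.flatMap W := by
  induction s with
  | zero =>
    rintro w (rfl | ⟨b, rfl⟩)
    · exact ⟨[], Or.inl rfl, rfl⟩
    · exact ⟨[b], Or.inr ⟨b, rfl⟩, by simp⟩
  | succ s ih =>
    rintro w ⟨u, hu, v, hv, k, rfl⟩
    obtain ⟨y, hy, rfl⟩ := ih u hu
    obtain ⟨z, hz, rfl⟩ := ih v hv
    exact ⟨(List.replicate k (y ++ z)).flatten, ⟨y, hy, z, hz, k, rfl⟩, by
      rw [flatMap_pow, List.flatMap_append]⟩

/-- Sequences of words of bounded power depth together with pairs of homomorphisms which agree on the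
previous words but not on the next one. -/
theorem seq_bound (m s : ℕ) : ∃ K : ℕ, ∀ (n : ℕ) (W : Fin m → List (Fin n)) (t : ℕ)
    (x : Fin t → List (Fin n)) (_ : ∀ i, x i ∈ PD W s) (g h : Fin t → Fin n → List (Fin n)),
    (∀ i p, i < p → (x i).flatMap (g p) = (x i).flatMap (h p)) →
    (∀ p, (x p).flatMap (g p) ≠ (x p).flatMap (h p)) → t ≤ K := by
  obtain ⟨K, hK⟩ := core m s
  refine ⟨K, fun n W t x hx g h h0 h1 => ?_⟩
  choose y hy hxy using fun i => exists_cls W s (x i) (hx i)
  have key : ∀ (w : List (Fin m)) (f : Fin n → List (Fin n)),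
      w.flatMap (fun b => ((W b).flatMap f).map Fin.val) = ((w.flatMap W).flatMap f).map Fin.val := by
    intro w f
    rw [List.flatMap_assoc, List.map_flatMap]
  refine hK t y hy (fun p b => ((W b).flatMap (g p)).map Fin.val)
    (fun p b => ((W b).flatMap (h p)).map Fin.val) ?_ ?_
  · intro i p hip
    rw [key, key, ← hxy, h0 i p hip]
  · intro p hp
    apply h1 p
    rw [key, key, ← hxy] at hp
    exact List.map_injective_iff.2 Fin.val_injective hp

/-- For all `m` and `s` there is a bound `K` for the length of all strictly increasing chains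
`M {x 0} ⊂ M {x 0, x 1} ⊂ ...` of words of power depth at most `s` over `m` base words; it does not depend on
the alphabet and on the base words. -/
theorem result : ∀ m s : ℕ, ∃ K : ℕ, ∀ (n : ℕ) (W : Fin m → List (Fin n)) (t : ℕ)
    (x : ℕ → List (Fin n)), (∀ j < t, x j ∈ PD W s) →
    (∀ i, 1 ≤ i → i < t → M (x '' Set.Iio i) ⊂ M (x '' Set.Iio (i + 1))) → t ≤ K := by
  intro m s
  obtain ⟨K, hK⟩ := seq_bound m s
  refine ⟨K + 1, fun n W t x hx hM => ?_⟩
  have hex : ∀ i, 1 ≤ i → i < t → ∃ g h : Fin n → List (Fin n),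
      (∀ j < i, (x j).flatMap g = (x j).flatMap h) ∧ (x i).flatMap g ≠ (x i).flatMap h := by
    intro i hi hit
    obtain ⟨w, hw, hw'⟩ := Set.exists_of_ssubset (hM i hi hit)
    have hw2 : ¬ ∀ g h : Fin n → List (Fin n), (∀ z ∈ x '' Set.Iio i, z.flatMap g = z.flatMap h) →
      w.flatMap g = w.flatMap h := hw'
    push Not at hw2
    obtain ⟨g, h, h1, h2⟩ := hw2
    refine ⟨g, h, fun j hj => h1 _ ⟨j, hj, rfl⟩, fun h3 => h2 ?_⟩
    have hw3 : ∀ g h : Fin n → List (Fin n),
      (∀ z ∈ x '' Set.Iio (i + 1), z.flatMap g = z.flatMap h) → w.flatMap g = w.flatMap h := hw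
    refine hw3 g h ?_
    rintro _ ⟨j, hj, rfl⟩
    rcases Nat.lt_succ_iff_lt_or_eq.1 hj with h4 | h4
    · exact h1 _ ⟨j, h4, rfl⟩
    · rw [h4]
      exact h3
  have hex' : ∀ i : Fin (t - 1), ∃ g h : Fin n → List (Fin n),
      (∀ j < (i : ℕ) + 1, (x j).flatMap g = (x j).flatMap h) ∧
        (x (i + 1)).flatMap g ≠ (x (i + 1)).flatMap h := by
    intro i
    have := i.2
    exact hex (i + 1) (by omega) (by omega)
  choose g h h1 h2 using hex'
  have h3 := hK n W (t - 1) (fun i => x (i + 1)) (fun i => hx _ (by have := i.2; omega)) g h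
    (fun i p hip => h1 p (i + 1) (by have : (i : ℕ) < p := hip; omega)) h2
  omega

end Pool.Agent.Results.MP_33c792_lc.PowerDepth
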